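import Pool.Agent.Helper91.FS.Goals2

/-!
# Project FS (MP_0130f7_co), packet AFH: the affine line
-/

set_option autoImplicit false

namespace Pool.Agent.Helper36.FS

open Finset
open Pool.Agent.Helper47.SR (Grp mv lev wt Ew W IsInv up dn StarAt HalfStarAt)
open Pool.Agent.Helper49.NF
open Pool.Agent.Helper91.FS

section

variable {n : ℕ} {K : Type} [Field K]

/-- the permutation `x ↦ a x + b`, transported to `Fin n` -/
def afp (e : K ≃ Fin n) (a : Kˣ) (b : K) : Equiv.Perm (Fin n) :=
  (e.symm.trans ((Units.mulLeft a).trans (Equiv.addRight b))).trans e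

theorem afp_apply (e : K ≃ Fin n) (a : Kˣ) (b x : K) : afp e a b (e x) = e (a * x + b) := by
  simp [afp]

theorem afp_mem (e : K ≃ Fin n) (A : Subgroup Kˣ) {a : Kˣ} (ha : a ∈ A) (b : K) :
    afp e a b ∈ aff e A := ⟨a, ha, b, fun x => afp_apply e a b x⟩

theorem aff_trans (e : K ≃ Fin n) (A : Subgroup Kˣ) (x y : Fin n) : ∃ γ ∈ aff e A, γ x = y := by
  refine ⟨afp e 1 (e.symm y - e.symm x), afp_mem e A A.one_mem _, ?_⟩
  have h := afp_apply e 1 (e.symm y - e.symm x) (e.symm x)
  rw [Equiv.apply_symm_apply] at h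
  rw [h, Units.val_one, one_mul, add_sub_cancel, Equiv.apply_symm_apply]

theorem aff_fx (e : K ≃ Fin n) (A : Subgroup Kˣ) (γ : Equiv.Perm (Fin n)) (hγ : γ ∈ aff e A)
    (h1 : γ ≠ 1) : fx γ ≤ 1 := by
  obtain ⟨a, -, b, hg⟩ := hγ
  unfold fx
  rw [Finset.card_le_one]
  intro x hx y hy
  simp only [mem_filter, mem_univ, true_and] at hx hy
  by_contra hxy
  apply h1
  have hx' := hg (e.symm x)
  have hy' := hg (e.symm y)
  rw [Equiv.apply_symm_apply, hx] at hx'
  rw [Equiv.apply_symm_apply, hy] at hy'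
  have ex : e.symm x = a * e.symm x + b := by
    rw [Equiv.symm_apply_eq]; exact hx'
  have ey : e.symm y = a * e.symm y + b := by
    rw [Equiv.symm_apply_eq]; exact hy'
  have hd : e.symm x - e.symm y ≠ 0 := by
    intro h
    exact hxy (e.symm.injective (sub_eq_zero.1 h))
  have ha : (a : K) = 1 := by
    have h : ((a : K) - 1) * (e.symm x - e.symm y) = 0 := by
      linear_combination - ex + ey
    rcases mul_eq_zero.1 h with h | h
    · exact sub_eq_zero.1 h
    · exact absurd h hd
  have hb : b = 0 := by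
    rw [ha] at ex
    linear_combination - ex
  ext z
  have hz := hg (e.symm z)
  rw [Equiv.apply_symm_apply, ha, hb, one_mul, add_zero, Equiv.apply_symm_apply] at hz
  rw [hz]
  rfl

theorem aff_three (e : K ≃ Fin n) (A : Subgroup Kˣ) :
    #((els (aff e A)).filter (fun γ => orderOf γ = 3)) ≤ 3 * n := by
  classical
  let T : Finset K := (Polynomial.nthRoots 3 (1 : K)).toFinset
  have hT : #T ≤ 3 := (Multiset.toFinset_card_le _).trans (Polynomial.card_nthRoots 3 1)
  have hc : #(T ×ˢ (univ : Finset (Fin n))) ≤ 3 * n := by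
    rw [card_product, card_univ, Fintype.card_fin]
    exact Nat.mul_le_mul_right _ hT
  refine le_trans ?_ hc
  refine Finset.card_le_card_of_injOn
    (fun γ => (e.symm (γ (e 1)) - e.symm (γ (e 0)), γ (e 0))) ?_ ?_
  · intro γ hγ
    rw [mem_coe, mem_filter] at hγ
    obtain ⟨h1, h3⟩ := hγ
    simp only [els, mem_filter, mem_univ, true_and] at h1
    obtain ⟨a, -, b, hg⟩ := h1
    rw [mem_coe, mem_product]
    refine ⟨?_, mem_univ _⟩
    have hpow : γ ^ 3 = 1 := by
      rw [← h3]; exact pow_orderOf_eq_one γ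
    have h3' : ∀ x, (a : K) * (a * (a * x + b) + b) + b = x := by
      intro x
      have h := congrArg (fun σ : Equiv.Perm (Fin n) => σ (e x)) hpow
      simp only [pow_succ, pow_zero, one_mul, Equiv.Perm.mul_apply, Equiv.Perm.one_apply] at h
      rw [hg, hg, hg] at h
      exact e.injective h
    have e0 := h3' 0
    have e1 := h3' 1
    have ea : (a : K) ^ 3 = 1 := by linear_combination e1 - e0
    have hval : e.symm (γ (e 1)) - e.symm (γ (e 0)) = a := by
      rw [hg, hg]; simp
    simp only [T, Multiset.mem_toFinset]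
    rw [Polynomial.mem_nthRoots (by norm_num), hval, ea]
  · intro γ hγ γ' hγ' heq
    rw [mem_coe, mem_filter] at hγ hγ'
    have h1 := hγ.1
    have h1' := hγ'.1
    simp only [els, mem_filter, mem_univ, true_and] at h1 h1'
    obtain ⟨a, -, b, hg⟩ := h1
    obtain ⟨a', -, b', hg'⟩ := h1'
    simp only [hg, hg', Prod.mk.injEq, Equiv.symm_apply_apply, mul_one, mul_zero, zero_add,
      add_sub_cancel_right, EmbeddingLike.apply_eq_iff_eq] at heq
    ext z
    have hz := hg (e.symm z)
    have hz' := hg' (e.symm z)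
    rw [Equiv.apply_symm_apply] at hz hz'
    rw [hz, hz', heq.1, heq.2]

theorem aff_hom (e : K ≃ Fin n) : Hom (aff e ⊤) 2 := by
  intro A hA B hB
  rw [mem_powersetCard] at hA hB
  obtain ⟨x, y, hxy, rfl⟩ := Finset.card_eq_two.1 hA.2
  obtain ⟨z, w, hzw, rfl⟩ := Finset.card_eq_two.1 hB.2
  have hx : e.symm x - e.symm y ≠ 0 := by
    intro h
    exact hxy (e.symm.injective (sub_eq_zero.1 h))
  have hz : e.symm z - e.symm w ≠ 0 := by
    intro h
    exact hzw (e.symm.injective (sub_eq_zero.1 h))
  let a : Kˣ := Units.mk0 ((e.symm z - e.symm w) / (e.symm x - e.symm y)) (div_ne_zero hz hx)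
  have ha : (a : K) = (e.symm z - e.symm w) / (e.symm x - e.symm y) := rfl
  refine ⟨afp e a (e.symm z - a * e.symm x), afp_mem e ⊤ (Subgroup.mem_top a) _, ?_⟩
  have h1 := afp_apply e a (e.symm z - a * e.symm x) (e.symm x)
  have h2 := afp_apply e a (e.symm z - a * e.symm x) (e.symm y)
  rw [Equiv.apply_symm_apply] at h1 h2
  have e1 : (a : K) * e.symm x + (e.symm z - a * e.symm x) = e.symm z := by ring
  have e2 : (a : K) * e.symm y + (e.symm z - a * e.symm x) = e.symm w := by
    rw [ha]
    field_simp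
    ring
  rw [e1, Equiv.apply_symm_apply] at h1
  rw [e2, Equiv.apply_symm_apply] at h2
  unfold mv
  rw [Finset.map_insert, Finset.map_singleton]
  simp only [Equiv.coe_toEmbedding]
  rw [h1, h2]

theorem goal_AFH : Goal_AFH := by
  intro n K _ e
  refine ⟨fun A => ⟨aff_trans e A, aff_fx e A, aff_three e A⟩, aff_hom e, ?_⟩
  by_contra h
  have h1 : n ≤ 1 := by omega
  have : e 0 = e 1 := by
    apply Fin.ext
    have := (e 0).2
    have := (e 1).2
    omega
  exact zero_ne_one (e.injective this)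

end

end Pool.Agent.Helper36.FS
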